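import Mathlib
import Pool.Agent.H486.OA.Stm0

set_option autoImplicit false

open MeasureTheory Set
open scoped ENNReal Real
open Pool.Agent.H486.OA

namespace Pool.Agent.H122.OA

/-- the kernel on the plane -/
noncomputable def G (k : ℝ → ℝ≥0∞) (τ s t : ℝ) : ℝ≥0∞ :=
  (Ioi τ).indicator (fun s => (Ioi s).indicator
    (fun t => k t * ENNReal.ofReal (√(t - s))⁻¹ * ENNReal.ofReal (√(s - τ))⁻¹) t) s

theorem meas_G (k : ℝ → ℝ≥0∞) (hk : Measurable k) (τ : ℝ) :
    Measurable (Function.uncurry (G k τ)) := by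
  have h1 : Function.uncurry (G k τ) = fun p : ℝ × ℝ =>
      ({p : ℝ × ℝ | τ < p.1} ∩ {p : ℝ × ℝ | p.1 < p.2}).indicator
        (fun p => k p.2 * ENNReal.ofReal (√(p.2 - p.1))⁻¹ * ENNReal.ofReal (√(p.1 - τ))⁻¹) p := by
    funext p
    obtain ⟨s, t⟩ := p
    show G k τ s t = _
    unfold G
    by_cases h : τ < s
    · by_cases h2 : s < t
      · rw [indicator_of_mem (show s ∈ Ioi τ from h), indicator_of_mem (show t ∈ Ioi s from h2),
          indicator_of_mem (show (s, t) ∈ ({p : ℝ × ℝ | τ < p.1} ∩ {p : ℝ × ℝ | p.1 < p.2}) from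
            ⟨h, h2⟩)]
      · rw [indicator_of_mem (show s ∈ Ioi τ from h),
          indicator_of_notMem (show t ∉ Ioi s from h2),
          indicator_of_notMem (fun h3 => h2 h3.2)]
    · rw [indicator_of_notMem (show s ∉ Ioi τ from h),
        indicator_of_notMem (fun h3 => h h3.1)]
  rw [h1]
  apply Measurable.indicator
  · have m1 : Measurable fun p : ℝ × ℝ => k p.2 := hk.comp measurable_snd
    have m2 : Measurable fun p : ℝ × ℝ => ENNReal.ofReal (√(p.2 - p.1))⁻¹ :=
      ENNReal.measurable_ofReal.comp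
        (Real.continuous_sqrt.measurable.comp (measurable_snd.sub measurable_fst)).inv
    have m3 : Measurable fun p : ℝ × ℝ => ENNReal.ofReal (√(p.1 - τ))⁻¹ :=
      ENNReal.measurable_ofReal.comp
        (Real.continuous_sqrt.measurable.comp (measurable_fst.sub measurable_const)).inv
    exact (m1.mul m2).mul m3
  · exact (measurableSet_lt measurable_const measurable_fst).inter
      (measurableSet_lt measurable_fst measurable_snd)

theorem tonelli (h : S_beta) (k : ℝ → ℝ≥0∞) (hk : Measurable k) (τ : ℝ) :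
    ∫⁻ s in Ioi τ, J k s * ENNReal.ofReal (√(s - τ))⁻¹ =
      ENNReal.ofReal π * ∫⁻ t in Ioi τ, k t := by
  have h1 : ∫⁻ s in Ioi τ, J k s * ENNReal.ofReal (√(s - τ))⁻¹ = ∫⁻ s, ∫⁻ t, G k τ s t := by
    rw [← lintegral_indicator measurableSet_Ioi]
    refine lintegral_congr fun s => ?_
    unfold G
    by_cases hs : s ∈ Ioi τ
    · rw [indicator_of_mem hs]
      have h2 : (fun t => (Ioi τ).indicator (fun s => (Ioi s).indicator
          (fun t => k t * ENNReal.ofReal (√(t - s))⁻¹ * ENNReal.ofReal (√(s - τ))⁻¹) t) s) =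
          (fun t => (Ioi s).indicator
            (fun t => k t * ENNReal.ofReal (√(t - s))⁻¹ * ENNReal.ofReal (√(s - τ))⁻¹) t) := by
        funext t
        rw [indicator_of_mem hs]
      rw [h2, lintegral_indicator measurableSet_Ioi]
      unfold J
      rw [← lintegral_mul_const]
      have m1 : Measurable fun t : ℝ => ENNReal.ofReal (√(t - s))⁻¹ :=
        ENNReal.measurable_ofReal.comp
          (Real.continuous_sqrt.measurable.comp (measurable_id.sub measurable_const)).inv
      exact hk.mul m1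
    · rw [indicator_of_notMem hs]
      have h2 : (fun t => (Ioi τ).indicator (fun s => (Ioi s).indicator
          (fun t => k t * ENNReal.ofReal (√(t - s))⁻¹ * ENNReal.ofReal (√(s - τ))⁻¹) t) s) =
          fun _ => (0 : ℝ≥0∞) := by
        funext t
        rw [indicator_of_notMem hs]
      rw [h2, lintegral_zero]
  have h3 : ∫⁻ t, ∫⁻ s, G k τ s t = ENNReal.ofReal π * ∫⁻ t in Ioi τ, k t := by
    rw [← lintegral_const_mul _ hk, ← lintegral_indicator measurableSet_Ioi]
    refine lintegral_congr fun t => ?_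
    have h4 : (fun s => G k τ s t) = (Ioo τ t).indicator
        (fun s => k t * ENNReal.ofReal ((√(s - τ))⁻¹ * (√(t - s))⁻¹)) := by
      funext s
      unfold G
      by_cases hs : τ < s
      · by_cases hst : s < t
        · rw [indicator_of_mem (show s ∈ Ioi τ from hs), indicator_of_mem (show t ∈ Ioi s from hst),
            indicator_of_mem (show s ∈ Ioo τ t from ⟨hs, hst⟩),
            ENNReal.ofReal_mul (inv_nonneg.2 (Real.sqrt_nonneg _)), mul_assoc,
            mul_comm (ENNReal.ofReal (√(t - s))⁻¹)]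
        · rw [indicator_of_mem (show s ∈ Ioi τ from hs),
            indicator_of_notMem (show t ∉ Ioi s from hst),
            indicator_of_notMem (fun h5 : s ∈ Ioo τ t => hst h5.2)]
      · rw [indicator_of_notMem (show s ∉ Ioi τ from hs),
          indicator_of_notMem (fun h5 : s ∈ Ioo τ t => hs h5.1)]
    rw [h4, lintegral_indicator measurableSet_Ioo]
    have m2 : Measurable fun s : ℝ => ENNReal.ofReal ((√(s - τ))⁻¹ * (√(t - s))⁻¹) :=
      ENNReal.measurable_ofReal.comp
        ((Real.continuous_sqrt.measurable.comp (measurable_id.sub measurable_const)).inv.mul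
          (Real.continuous_sqrt.measurable.comp (measurable_const.sub measurable_id)).inv)
    rw [lintegral_const_mul _ m2]
    by_cases ht : t ∈ Ioi τ
    · rw [indicator_of_mem ht, h τ t ht, mul_comm]
    · rw [indicator_of_notMem ht]
      have h5 : Ioo τ t = ∅ := Ioo_eq_empty ht
      rw [h5, Measure.restrict_empty, lintegral_zero_measure, mul_zero]
  rw [h1, lintegral_lintegral_swap (meas_G k hk τ).aemeasurable, h3]

theorem tails (h : S_beta) (k l : ℝ → ℝ≥0∞) (hk : Measurable k) (hl : Measurable l)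
    (hJ : ∀ s, 1 ≤ s → J k s = J l s) (τ : ℝ) (hτ : 1 ≤ τ) :
    ∫⁻ t in Ioi τ, k t = ∫⁻ t in Ioi τ, l t := by
  have h1 := tonelli h k hk τ
  have h2 := tonelli h l hl τ
  have h3 : ∫⁻ s in Ioi τ, J k s * ENNReal.ofReal (√(s - τ))⁻¹ =
      ∫⁻ s in Ioi τ, J l s * ENNReal.ofReal (√(s - τ))⁻¹ := by
    refine setLIntegral_congr_fun measurableSet_Ioi fun s hs => ?_
    have h4 : 1 ≤ s := hτ.trans (le_of_lt hs)
    show J k s * _ = J l s * _
    rw [hJ s h4]
  rw [h1, h2] at h3
  exact (ENNReal.mul_right_inj (by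
    rw [Ne, ENNReal.ofReal_eq_zero, not_le]
    exact Real.pi_pos) ENNReal.ofReal_ne_top).1 h3

theorem t2 (h : S_beta) : S_inj := by
  intro k l hk hl hJ hfin
  have hfin' : ∫⁻ t in Ioi (1 : ℝ), l t ≠ ∞ := by
    rw [← tails h k l hk hl hJ 1 le_rfl]
    exact hfin
  have hIoi : ∀ (f : ℝ → ℝ≥0∞) (a : ℝ),
      ((volume.restrict (Ioi (1 : ℝ))).withDensity f) (Ioi a) = ∫⁻ t in Ioi (max a 1), f t := by
    intro f a
    rw [withDensity_apply _ measurableSet_Ioi, Measure.restrict_restrict measurableSet_Ioi,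
      Ioi_inter_Ioi]
  have huniv : ∀ (f : ℝ → ℝ≥0∞),
      ((volume.restrict (Ioi (1 : ℝ))).withDensity f) univ = ∫⁻ t in Ioi (1 : ℝ), f t := by
    intro f
    rw [withDensity_apply _ MeasurableSet.univ, Measure.restrict_univ]
  haveI : IsFiniteMeasure ((volume.restrict (Ioi (1 : ℝ))).withDensity k) :=
    ⟨by rw [huniv]; exact lt_of_le_of_ne le_top hfin⟩
  haveI : IsFiniteMeasure ((volume.restrict (Ioi (1 : ℝ))).withDensity l) :=
    ⟨by rw [huniv]; exact lt_of_le_of_ne le_top hfin'⟩
  have heq : (volume.restrict (Ioi (1 : ℝ))).withDensity k =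
      (volume.restrict (Ioi (1 : ℝ))).withDensity l := by
    apply Measure.ext_of_Iic
    intro a
    rw [← compl_Ioi, measure_compl measurableSet_Ioi (measure_ne_top _ _),
      measure_compl measurableSet_Ioi (measure_ne_top _ _), huniv, huniv, hIoi, hIoi,
      tails h k l hk hl hJ 1 le_rfl, tails h k l hk hl hJ (max a 1) (le_max_right _ _)]
  exact (withDensity_eq_iff hk.aemeasurable hl.aemeasurable hfin).1 heq

end Pool.Agent.H122.OA
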